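import Pool.Agent.H.MP_0f8a1e_an.J

set_option autoImplicit false

open scoped Laplacian

namespace Pool.Agent.Results.MP_9a9339_an.Yes

abbrev E (d : ℕ) := EuclideanSpace ℝ (Fin d)

/-- Positive reaction. -/
def React (f : ℝ → ℝ) : Prop :=
  ContDiffOn ℝ 1 f (Set.Ici 0) ∧ f 0 = 0 ∧ f 1 = 0 ∧ (∀ t, 1 < t → f t < 0) ∧ deriv f 1 < 0 ∧
    (∀ t, 0 < t → t < 1 → 0 < f t) ∧ 0 < derivWithin f (Set.Ici 0) 0

/-- The first `n` coordinates. -/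
def hd {n : ℕ} (y : E (n + 1)) : E n := WithLp.toLp 2 fun i => y (Fin.castSucc i)

/-- `φ` is twice continuously differentiable on the ball of radius `r`, Hessian at most `M`. -/
def C2 {n : ℕ} (φ : E n → ℝ) (r M : ℝ) : Prop :=
  ContDiffOn ℝ 2 φ (Metric.ball 0 r) ∧ ∀ y ∈ Metric.ball 0 r, ‖fderiv ℝ (fderiv ℝ φ) y‖ ≤ M

/-- Uniform boundary charts. -/
def Unif {n : ℕ} (Ω : Set (E (n + 1))) : Prop :=
  ∃ r > 0, ∃ M : ℝ, ∀ x ∈ frontier Ω, ∃ (R : E (n + 1) ≃ₗᵢ[ℝ] E (n + 1)) (φ : E n → ℝ),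
    C2 φ r M ∧ ∀ z ∈ Metric.ball x r, (z ∈ Ω ↔ φ (hd (R (z - x))) < R (z - x) (Fin.last n))

/-- Positive bounded classical solution of `-Δ u = f u` in `Ω`, `u = 0` on the boundary. -/
def IsSol {d : ℕ} (Ω : Set (E d)) (f : ℝ → ℝ) (u : E d → ℝ) : Prop :=
  ContDiffOn ℝ 2 u Ω ∧ ContinuousOn u (closure Ω) ∧ (∃ C : ℝ, ∀ x ∈ Ω, |u x| ≤ C) ∧
    (∀ x ∈ Ω, -Δ u x = f (u x)) ∧ (∀ x ∈ frontier Ω, u x = 0) ∧ ∀ x ∈ Ω, 0 < u x

open Pool.Agent.H.MP_0f8a1e_an in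
theorem result (n : ℕ) (f : ℝ → ℝ) (hf : React f) (Ω : Set (E (n + 1))) (ho : IsOpen Ω)
    (hc : IsConnected Ω) (hb : Unif Ω)
    (hs : ∃ U, IsOpen U ∧ U.Nonempty ∧ ∀ o ∈ U, ∀ y ∈ Ωᶜ, segment ℝ y o ⊆ Ωᶜ) :
    ∃ u, IsSol Ω f u ∧ ∀ v, IsSol Ω f v → ∀ x ∈ closure Ω, v x = u x := by
  obtain ⟨hf, f0, f1, hn, d1, hp, d0⟩ := hf
  obtain ⟨g, g0, g1, g2⟩ := extf hf
  obtain ⟨r, r0, M, hM⟩ := hb
  obtain ⟨U, -, ⟨o, o1⟩, hU⟩ := hs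
  have e : ∀ u, IsSol Ω f u ↔ IsS Ω g u := fun u => by
    simp only [IsSol, IsS, lap_Δ]
    constructor <;> rintro ⟨a, b, c, d, e, k⟩ <;>
      exact ⟨a, b, c, fun x hx => by rw [d x hx, g1 _ (k x hx).le], e, k⟩
  obtain ⟨⟨u, hu⟩, H⟩ := main (o := o) g0 (by rw [g1 0 le_rfl, f0]) (by rw [g1 1 zero_le_one, f1])
    (fun t ht => by rw [g1 t (by linarith)]; exact hn t ht) (by
      rwa [g2 1 zero_le_one, derivWithin_of_mem_nhds (Ici_mem_nhds one_pos)])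
    (fun t h0 h1 => by rw [g1 t h0.le]; exact hp t h0 h1) (by rwa [g2 0 le_rfl]) ho hc (fun hne =>
      gm_of (V := EuclideanSpace ℝ (Fin n)) (M := M) ((EuclideanSpace.equiv (Fin n) ℝ).symm ∘L
        ContinuousLinearMap.pi fun i => EuclideanSpace.proj (Fin.castSucc i)) (fun y => by
          rw [EuclideanSpace.norm_eq, EuclideanSpace.norm_eq, Fin.sum_univ_castSucc]
          exact Real.sqrt_le_sqrt (le_add_of_nonneg_right (sq_nonneg _))) (Fin.last n)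
        (by ext i; simp [eb, Fin.castSucc_ne_last]) ho hne r0 fun x hx => by
          obtain ⟨R, φ, ⟨a1, a2⟩, a3⟩ := hM x hx
          exact ⟨R, φ, fun y hy => ⟨a1.contDiffAt (Metric.isOpen_ball.mem_nhds hy), a2 y hy⟩, a3⟩)
    (starConvex_iff_segment_subset.2 fun y hy => segment_symm ℝ y o ▸ hU o o1 y hy)
  exact ⟨u, (e u).2 hu, fun v hv => H v u ((e v).1 hv) hu⟩

end Pool.Agent.Results.MP_9a9339_an.Yes
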